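import Pool.Agent.helper65.GD.SpecD

set_option autoImplicit false

/-!
# MP_ea335c_an, row gdm:DIL
-/

namespace Pool.Agent.GD

open Finset Metric Filter Topology

theorem DIL_prod {p : ℕ} {r : ℝ} (hr : r ≠ 0) (a : Fin p → ℂ) (z : ℂ) :
    ∏ l, ((r : ℂ) * z - a l) = (∏ l, (z - a l / r)) * (r : ℂ) ^ p := by
  have hr' : (r : ℂ) ≠ 0 := by exact_mod_cast hr
  have h1 : ∀ l ∈ (univ : Finset (Fin p)), (r : ℂ) * z - a l = (z - a l / r) * r := by
    intro l _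
    rw [sub_mul, div_mul_cancel₀ _ hr', mul_comm]
  rw [prod_congr rfl h1, prod_mul_distrib, prod_const, card_univ, Fintype.card_fin]

theorem DIL_mem {r R : ℝ} (hr : 0 < r) {z : ℂ} (hz : z ∈ ball (0 : ℂ) (R / r)) :
    (r : ℂ) * z ∈ ball (0 : ℂ) R := by
  rw [mem_ball_zero_iff] at hz ⊢
  rw [norm_mul, Complex.norm_real, Real.norm_eq_abs, abs_of_pos hr]
  rw [lt_div_iff₀ hr] at hz
  linarith

theorem DIL_diff {r R : ℝ} (hr : 0 < r) {f : ℂ → ℂ} (hf : DifferentiableOn ℂ f (ball 0 R)) :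
    DifferentiableOn ℂ (fun z => f (r * z)) (ball 0 (R / r)) := by
  have h1 : DifferentiableOn ℂ (fun z : ℂ => (r : ℂ) * z) (ball 0 (R / r)) :=
    (differentiableOn_id.const_mul (r : ℂ))
  exact hf.comp h1 fun z hz => DIL_mem hr hz

theorem DIL_deriv (r : ℝ) (f : ℂ → ℂ) (z : ℂ) :
    z * deriv (fun z => f (r * z)) z = ((r : ℂ) * z) * deriv f (r * z) := by
  rw [deriv_comp_mul_left, smul_eq_mul]
  ring

theorem DIL (hPFA : PFA_stmt) (hZCN : ZCN_stmt) : DIL_stmt := by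
  intro f F p hC
  obtain ⟨hf, hF, ρ₁, hρ₁, hpos⟩ := hC
  obtain ⟨hp1, hFan, hF0, ⟨a, g, ha, hg, hg0, hFeq⟩, ρ₂, hρ₂, hstar⟩ := hF
  have ha' : ∀ l, ‖a l‖ < 1 := fun l => by
    have := ha l
    rwa [mem_ball_zero_iff] at this
  obtain ⟨l0, _, hl0⟩ := exists_max_image (univ : Finset (Fin p)) (fun l => ‖a l‖)
    ⟨⟨0, hp1⟩, mem_univ _⟩
  refine ⟨max (max ρ₁ ρ₂) (max ‖a l0‖ 0), max_lt (max_lt hρ₁ hρ₂) (max_lt (ha' l0) one_pos), ?_⟩
  intro r hr hr1
  have hr11 : ρ₁ < r := lt_of_le_of_lt ((le_max_left _ _).trans (le_max_left _ _)) hr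
  have hr12 : ρ₂ < r := lt_of_le_of_lt ((le_max_right _ _).trans (le_max_left _ _)) hr
  have hr13 : ‖a l0‖ < r := lt_of_le_of_lt ((le_max_left _ _).trans (le_max_right _ _)) hr
  have hr0 : 0 < r := lt_of_le_of_lt ((le_max_right _ _).trans (le_max_right _ _)) hr
  have har : ∀ l, ‖a l‖ < r := fun l => lt_of_le_of_lt (hl0 l (mem_univ l)) hr13
  have hh : DifferentiableOn ℂ (fun z => z * deriv f z) (ball 0 1) :=
    differentiableOn_id.mul (hf.deriv isOpen_ball)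
  obtain ⟨R, M, b, U, hR1, hfac⟩ := hPFA (fun z => z * deriv f z) r hr0 hr1 hh (by
    intro z hz h0
    have h1 := hpos z (by rw [hz]; exact hr11) (by rw [hz]; exact hr1)
    have h2 : z * deriv f z = 0 := h0
    rw [h2, zero_div, Complex.zero_re] at h1
    exact lt_irrefl _ h1)
  have hFac : Fac F r 1 p a g := ⟨hr0, hr1, har, hg, hg0, hFeq⟩
  have hM : M = p := hZCN (fun z => z * deriv f z) F r R 1 M p b a U g hfac hFac (by
    intro z hz
    exact hpos z (by rw [hz]; exact hr11) (by rw [hz]; exact hr1))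
  subst hM
  obtain ⟨-, hrR, hb, hUd, hU0, heq⟩ := hfac
  have hrC : (r : ℂ) ≠ 0 := by exact_mod_cast hr0.ne'
  have hrp : (r : ℂ) ^ M ≠ 0 := pow_ne_zero _ hrC
  have hnorm : ∀ c : ℂ, ‖c‖ < r → ‖c / r‖ < 1 := by
    intro c hc
    rw [norm_div, Complex.norm_real, Real.norm_eq_abs, abs_of_pos hr0, div_lt_one hr0]
    exact hc
  have hsub : ball (0 : ℂ) 1 ⊆ ball (0 : ℂ) (1 / r) :=
    ball_subset_ball (by rw [le_div_iff₀ hr0]; linarith)
  have hsubR : ball (0 : ℂ) (R / r) ⊆ ball (0 : ℂ) (1 / r) :=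
    ball_subset_ball (div_le_div_of_nonneg_right hR1 hr0.le)
  have hFr : ∀ z ∈ ball (0 : ℂ) (1 / r), F (r * z) =
      (∏ l, (z - a l / r)) * ((r : ℂ) ^ M * g (r * z)) := by
    intro z hz
    rw [hFeq _ (DIL_mem hr0 hz), DIL_prod hr0.ne']
    ring
  refine ⟨R / r, fun l => a l / r, fun l => b l / r, fun z => (r : ℂ) ^ M * g (r * z),
    fun z => (r : ℂ) ^ M * U (r * z), ?_⟩
  refine ⟨?_, ⟨hp1, ?_, ?_, ⟨fun l => a l / r, fun z => (r : ℂ) ^ M * g (r * z), ?_, ?_, ?_, ?_⟩,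
    ρ₂ / r, ?_, ?_⟩, ?_, ?_, ?_, ?_, ?_, ?_, ?_, ?_, ?_, ?_⟩
  · rw [lt_div_iff₀ hr0, one_mul]
    exact hrR
  · exact (DIL_diff hr0 hFan).mono hsub
  · show F (r * 0) = 0
    rw [mul_zero, hF0]
  · intro l
    rw [mem_ball_zero_iff]
    exact hnorm _ (har l)
  · exact ((DIL_diff hr0 hg).mono hsub).const_mul _
  · intro z hz
    exact mul_ne_zero hrp (hg0 _ (DIL_mem hr0 (hsub hz)))
  · intro z hz
    exact hFr z (hsub hz)
  · rw [div_lt_one hr0]
    exact hr12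
  · intro z hz1 hz2
    show 0 < (z * deriv (fun z => F (r * z)) z / F (r * z)).re
    rw [DIL_deriv]
    have hn : ‖(r : ℂ) * z‖ = r * ‖z‖ := by
      rw [norm_mul, Complex.norm_real, Real.norm_eq_abs, abs_of_pos hr0]
    apply hstar
    · rw [hn]
      rw [div_lt_iff₀ hr0] at hz1
      linarith
    · rw [hn]
      nlinarith
  · exact (DIL_diff hr0 (hf.mono (ball_subset_ball hR1)))
  · intro z hz
    show 0 < (z * deriv (fun z => f (r * z)) z / F (r * z)).re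
    rw [DIL_deriv]
    have hn : ‖(r : ℂ) * z‖ = r := by
      rw [norm_mul, Complex.norm_real, Real.norm_eq_abs, abs_of_pos hr0, hz, mul_one]
    exact hpos _ (by rw [hn]; exact hr11) (by rw [hn]; exact hr1)
  · intro l
    exact hnorm _ (har l)
  · intro l
    exact hnorm _ (hb l)
  · exact ((DIL_diff hr0 hg).mono hsubR).const_mul _
  · intro z hz
    exact mul_ne_zero hrp (hg0 _ (DIL_mem hr0 (hsubR hz)))
  · exact (DIL_diff hr0 hUd).const_mul _
  · intro z hz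
    exact mul_ne_zero hrp (hU0 _ (DIL_mem hr0 hz))
  · intro z hz
    exact hFr z (hsubR hz)
  · intro z hz
    show z * deriv (fun z => f (r * z)) z = (∏ l, (z - b l / r)) * ((r : ℂ) ^ M * U (r * z))
    rw [DIL_deriv]
    have h1 := heq _ (DIL_mem hr0 hz)
    simp only at h1
    rw [h1, DIL_prod hr0.ne']
    ring

end Pool.Agent.GD
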