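import Pool.Agent.helper65.GD.SpecE

/-! # Project gdm (MP_ea335c_an), row RGB: Rogosinski's inequality from the finite case -/

set_option autoImplicit false

namespace Pool.Agent.GD

open Finset Metric Filter Topology

theorem RGB_fin (hRGA : RGA_stmt) (N : ℕ) (w : Fin N → ℝ) (x : Fin N → ℂ) (κ : ℂ) (Q F : ℕ → ℂ) (n : ℕ)
    (hA : Atomic N w x) (hκ : ‖κ‖ ^ 2 ≤ κ.re) (hQ0 : Q 0 = 1) (hQ : ∀ m, 1 ≤ m → Q m = 2 * κ * mom w x m) :
    ‖cv Q F n - F n‖ ^ 2 ≤ 4 * ∑ m ∈ range n, ‖cv Q F m‖ * ‖F m‖ := by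
  have h1 := hRGA N w x κ Q F n hA hκ hQ0 hQ
  refine h1.trans ?_
  have hk1 : ‖κ‖ ≤ 1 := by
    have h2 : κ.re ≤ ‖κ‖ := Complex.re_le_norm κ
    have h3 : 0 ≤ ‖κ‖ := norm_nonneg κ
    nlinarith
  have h2 : ∑ m ∈ range n, ((starRingEnd ℂ) κ * (cv Q F m * (starRingEnd ℂ) (F m))).re ≤
      ∑ m ∈ range n, ‖cv Q F m‖ * ‖F m‖ := by
    refine Finset.sum_le_sum fun m _ => ?_
    refine (Complex.re_le_norm _).trans ?_
    rw [norm_mul, norm_mul, RCLike.norm_conj, RCLike.norm_conj]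
    have h3 : 0 ≤ ‖cv Q F m‖ * ‖F m‖ := by positivity
    exact mul_le_of_le_one_left h3 hk1
  linarith

theorem RGB_tendsto (Qt : ℕ → ℕ → ℂ) (Q F : ℕ → ℂ) (n : ℕ)
    (h : ∀ m ≤ n, Tendsto (fun t => Qt t m) atTop (𝓝 (Q m))) (m : ℕ) (hm : m ≤ n) :
    Tendsto (fun t => cv (Qt t) F m) atTop (𝓝 (cv Q F m)) := by
  unfold cv
  refine tendsto_finsetSum _ fun r _ => ?_
  exact (h (m - r) (by omega)).mul_const _

/-- RGB. -/
theorem RGB (hRGA : RGA_stmt) : RGB_stmt := by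
  intro Q ⟨hQ0, κ, μ, hμ, hκ, hQ⟩ F n
  have hex : ∀ t : ℕ, ∃ Qt : ℕ → ℂ, (∀ m ≤ n, ‖Qt m - Q m‖ ≤ 2 * ‖κ‖ * (1 / ((t : ℝ) + 1))) ∧
      ‖cv Qt F n - F n‖ ^ 2 ≤ 4 * ∑ m ∈ range n, ‖cv Qt F m‖ * ‖F m‖ := by
    intro t
    obtain ⟨N, w, x, hA, hm⟩ := hμ n (1 / ((t : ℝ) + 1)) (by positivity)
    refine ⟨fun m => if m = 0 then 1 else 2 * κ * mom w x m, fun m hmn => ?_, ?_⟩
    · by_cases h0 : m = 0
      · subst h0
        simp only [if_true, hQ0, sub_self, norm_zero]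
        positivity
      · simp only [h0, if_false]
        rw [hQ m (Nat.one_le_iff_ne_zero.mpr h0), ← mul_sub, norm_mul, norm_mul]
        have h2 : ‖(2 : ℂ)‖ = 2 := by norm_num
        rw [h2]
        exact mul_le_mul_of_nonneg_left (hm m hmn).le (by positivity)
    · refine RGB_fin hRGA N w x κ _ F n hA hκ (by simp) fun m hm1 => ?_
      have h0 : m ≠ 0 := by omega
      simp only [h0, if_false]
  choose Qt hQt hineq using hex
  have hlim : ∀ m ≤ n, Tendsto (fun t => Qt t m) atTop (𝓝 (Q m)) := by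
    intro m hm
    rw [tendsto_iff_norm_sub_tendsto_zero]
    refine squeeze_zero (fun t => norm_nonneg _) (fun t => hQt t m hm) ?_
    have h0 := (tendsto_one_div_add_atTop_nhds_zero_nat (𝕜 := ℝ)).const_mul (2 * ‖κ‖)
    rw [mul_zero] at h0
    exact h0
  have hcv := RGB_tendsto Qt Q F n hlim
  have hL : Tendsto (fun t => ‖cv (Qt t) F n - F n‖ ^ 2) atTop (𝓝 (‖cv Q F n - F n‖ ^ 2)) :=
    (((hcv n le_rfl).sub_const _).norm).pow 2
  have hR : Tendsto (fun t => 4 * ∑ m ∈ range n, ‖cv (Qt t) F m‖ * ‖F m‖) atTop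
      (𝓝 (4 * ∑ m ∈ range n, ‖cv Q F m‖ * ‖F m‖)) := by
    refine Tendsto.const_mul 4 (tendsto_finsetSum _ fun m hm => ?_)
    exact ((hcv m (Finset.mem_range.mp hm).le).norm).mul_const _
  exact le_of_tendsto_of_tendsto' hL hR hineq

end Pool.Agent.GD
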